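import Pool.Agent.W770.KP.Stm

/-!
# Planes through a fixed vector
-/

namespace Pool.Agent.W929.KP

open Pool.Agent.W770.KP

open scoped Classical

section

variable {F E : Type} [Field F] [Fintype F] [AddCommGroup E] [Module F E] [Fintype E]

lemma mk_eq_iff (v x x0 : E) : (F ∙ v).mkQ x = (F ∙ v).mkQ x0 ↔ ∃ t : F, x0 + t • v = x := by
  rw [Submodule.mkQ_apply, Submodule.mkQ_apply, Submodule.Quotient.eq, Submodule.mem_span_singleton]
  constructor
  · rintro ⟨t, ht⟩
    exact ⟨t, by rw [ht]; abel⟩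
  · rintro ⟨t, rfl⟩
    exact ⟨t, by abel⟩

lemma fibre_sum (v : E) (hv : v ≠ 0) (f : E → ℝ) (x0 : E) :
    (∑ x : E, if (F ∙ v).mkQ x = (F ∙ v).mkQ x0 then f x else 0) = ∑ t : F, f (x0 + t • v) := by
  rw [← Finset.sum_filter]
  symm
  refine Finset.sum_bij (fun t _ => x0 + t • v) ?_ ?_ ?_ ?_
  · intro t _
    rw [Finset.mem_filter]
    exact ⟨Finset.mem_univ _, (mk_eq_iff v _ _).mpr ⟨t, rfl⟩⟩
  · intro s _ t _ hst
    have h1 : s • v = t • v := add_left_cancel hst
    exact smul_left_injective F hv h1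
  · intro x hx
    rw [Finset.mem_filter] at hx
    obtain ⟨t, ht⟩ := (mk_eq_iff v _ _).mp hx.2
    exact ⟨t, Finset.mem_univ _, ht⟩
  · intro t _
    rfl

lemma finrank_comap (v : E) (hv : v ≠ 0) (W' : Submodule F (E ⧸ (F ∙ v))) :
    Module.finrank F (W'.comap (F ∙ v).mkQ) = Module.finrank F W' + 1 := by
  have h1 := Submodule.finrank_quotient_add_finrank (W'.comap (F ∙ v).mkQ)
  have h2 := Submodule.finrank_quotient_add_finrank W'
  have h3 := Submodule.finrank_quotient_add_finrank (F ∙ v)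
  rw [finrank_span_singleton hv] at h3
  have hle : (F ∙ v) ≤ W'.comap (F ∙ v).mkQ := by
    intro x hx
    rw [Submodule.mem_comap, Submodule.mkQ_apply, (Submodule.Quotient.mk_eq_zero _).mpr hx]
    exact W'.zero_mem
  have h4 := (Submodule.quotientQuotientEquivQuotient (F ∙ v) (W'.comap (F ∙ v).mkQ) hle).finrank_eq
  have h5 : (W'.comap (F ∙ v).mkQ).map (F ∙ v).mkQ = W' :=
    Submodule.map_comap_eq_of_surjective (Submodule.mkQ_surjective _) W'
  rw [h5] at h4
  omega

end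

theorem st1 : S_ST1 := by
  intro n k hk hkn ⟨C, hC, hSA⟩
  refine ⟨C, hC, ?_⟩
  intro F E _ _ _ _ _ hE f hf a v hv
  let _ : Fintype (E ⧸ (F ∙ v)) := Fintype.ofFinite _
  have hE' : Module.finrank F (E ⧸ (F ∙ v)) = n := by
    have h3 := Submodule.finrank_quotient_add_finrank (F ∙ v)
    rw [finrank_span_singleton hv] at h3
    omega
  set h : E ⧸ (F ∙ v) → ℝ := fun y => ∑ x : E, if (F ∙ v).mkQ x = y then f x else 0 with hh
  have hh0 : ∀ y, 0 ≤ h y := by
    intro y
    refine Finset.sum_nonneg fun x _ => ?_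
    split_ifs
    · exact hf x
    · exact le_rfl
  have key := hSA F (E ⧸ (F ∙ v)) hE' h hh0 (fun W' => (F ∙ v).mkQ (a (W'.comap (F ∙ v).mkQ)))
  have hmem : ∀ W' : Submodule F (E ⧸ (F ∙ v)), v ∈ W'.comap (F ∙ v).mkQ := by
    intro W'
    rw [Submodule.mem_comap, Submodule.mkQ_apply,
      (Submodule.Quotient.mk_eq_zero _).mpr (Submodule.mem_span_singleton_self v)]
    exact W'.zero_mem
  have hGr : (Gr F E (k + 1)).filter (fun W => v ∈ W) =
      (Gr F (E ⧸ (F ∙ v)) k).map ⟨fun W' => W'.comap (F ∙ v).mkQ,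
        Submodule.comap_injective_of_surjective (Submodule.mkQ_surjective _)⟩ := by
    ext W
    simp only [Finset.mem_filter, Finset.mem_map, Function.Embedding.coeFn_mk, Gr,
      Finset.mem_univ, true_and]
    constructor
    · rintro ⟨hW, hvW⟩
      have h1 : (W.map (F ∙ v).mkQ).comap (F ∙ v).mkQ = W := by
        rw [Submodule.comap_map_mkQ, sup_eq_right]
        exact (Submodule.span_singleton_le_iff_mem _ _).mpr hvW
      refine ⟨W.map (F ∙ v).mkQ, ?_, h1⟩
      have h2 := finrank_comap v hv (W.map (F ∙ v).mkQ)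
      rw [h1, hW] at h2
      omega
    · rintro ⟨W', hW', rfl⟩
      exact ⟨by rw [finrank_comap v hv, hW'], hmem W'⟩
  have hPS : ∀ W' : Submodule F (E ⧸ (F ∙ v)), ∀ b : E,
      PS f b (W'.comap (F ∙ v).mkQ) = PS h ((F ∙ v).mkQ b) W' := by
    intro W' b
    unfold PS
    have h1 : ∀ y : E ⧸ (F ∙ v), (if y - (F ∙ v).mkQ b ∈ W' then h y else 0) =
        ∑ x : E, if (F ∙ v).mkQ x = y then (if y - (F ∙ v).mkQ b ∈ W' then f x else 0) else 0 := by
      intro y
      by_cases hy : y - (F ∙ v).mkQ b ∈ W'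
      · simp only [if_pos hy]
        rfl
      · simp only [if_neg hy, ite_self, Finset.sum_const_zero]
    rw [Finset.sum_congr rfl fun y _ => h1 y, Finset.sum_comm]
    refine Finset.sum_congr rfl fun x _ => ?_
    rw [Finset.sum_ite_eq, if_pos (Finset.mem_univ _)]
    have h2 : x - b ∈ W'.comap (F ∙ v).mkQ ↔ (F ∙ v).mkQ x - (F ∙ v).mkQ b ∈ W' := by
      rw [Submodule.mem_comap, map_sub]
    by_cases h3 : x - b ∈ W'.comap (F ∙ v).mkQ
    · rw [if_pos h3, if_pos (h2.mp h3)]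
    · rw [if_neg h3, if_neg (fun h4 => h3 (h2.mpr h4))]
  have hq : (Fintype.card F : ℝ) ≠ 0 := Nat.cast_ne_zero.mpr Fintype.card_ne_zero
  have hcount : ∀ g : E ⧸ (F ∙ v) → ℝ, (∑ x : E, g ((F ∙ v).mkQ x)) / (Fintype.card F : ℝ) = ∑ y, g y := by
    intro g
    rw [div_eq_iff hq]
    have h1 : ∀ x : E, g ((F ∙ v).mkQ x) =
        ∑ y : E ⧸ (F ∙ v), if (F ∙ v).mkQ x = y then g y else 0 := by
      intro x
      rw [Finset.sum_ite_eq, if_pos (Finset.mem_univ _)]
    rw [Finset.sum_congr rfl fun x _ => h1 x, Finset.sum_comm, Finset.sum_mul]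
    refine Finset.sum_congr rfl fun y _ => ?_
    obtain ⟨x0, rfl⟩ := (F ∙ v).mkQ_surjective y
    rw [fibre_sum v hv (fun _ => g ((F ∙ v).mkQ x0)) x0]
    simp [mul_comm]
  have hfin : (∑ x : E, (∑ t : F, f (x + t • v)) ^ ((n : ℝ) / (k : ℝ))) / (Fintype.card F : ℝ) =
      ∑ y, (h y) ^ ((n : ℝ) / (k : ℝ)) := by
    rw [← hcount]
    congr 1
    refine Finset.sum_congr rfl fun x _ => ?_
    rw [hh]
    simp only
    rw [fibre_sum v hv f x]
  rw [hfin, hGr, Finset.card_map, Finset.sum_map]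
  refine le_trans (le_of_eq ?_) key
  refine Finset.sum_congr rfl fun W' _ => ?_
  simp only [Function.Embedding.coeFn_mk]
  rw [hPS]

end Pool.Agent.W929.KP
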